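import Mathlib
import Pool.Agent.H17.Wojcik

set_option autoImplicit false

namespace Pool.Agent.Results.MP_24ae9b_co.Wojcik

open Finset

/-- closed under pairwise unions -/
def UnionClosed (F : Finset (Finset ℕ)) : Prop := ∀ A ∈ F, ∀ B ∈ F, A ∪ B ∈ F

/-- density: total size of the members divided by (size of the union) times (number of members) -/
def density (F : Finset (Finset ℕ)) : ℚ :=
  (∑ A ∈ F, (A.card : ℚ)) / (((F.biUnion id).card : ℚ) * (F.card : ℚ))

/-- all subsets of a `k`-set together with the `n`-set -/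
def W (n k : ℕ) : Finset (Finset ℕ) := insert (range n) (range k).powerset

lemma sum_pow (k : ℕ) : 2 * ∑ A ∈ (range k).powerset, (A.card : ℚ) = k * 2 ^ k := by
  induction k with
  | zero => simp
  | succ k ih =>
    rw [range_add_one, sum_powerset_insert notMem_range_self]
    have : ∑ A ∈ (range k).powerset, ((insert k A).card : ℚ) =
        ∑ A ∈ (range k).powerset, ((A.card : ℚ) + 1) := by
      refine sum_congr rfl fun A hA => ?_
      rw [card_insert_of_notMem (fun h => notMem_range_self (mem_powerset.mp hA h))]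
      push_cast; rfl
    rw [this, sum_add_distrib, sum_const, card_powerset, card_range]
    simp only [nsmul_eq_mul]
    push_cast
    rw [pow_succ]
    linarith

lemma W_union (n k : ℕ) (h : k < n) : (W n k).biUnion id = range n := by
  apply Subset.antisymm
  · rw [biUnion_subset]
    intro A hA
    rcases mem_insert.mp hA with rfl | hA
    · exact subset_rfl
    · exact (mem_powerset.mp hA).trans (range_subset_range.mpr h.le)
  · exact subset_biUnion_of_mem id (mem_insert_self _ _)

lemma W_uc (n k : ℕ) (h : k < n) : UnionClosed (W n k) := by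
  have sub : ∀ A ∈ W n k, A ⊆ range n := fun A hA =>
    W_union n k h ▸ subset_biUnion_of_mem id hA
  intro A hA B hB
  rcases mem_insert.mp hA with rfl | hA'
  · rw [union_eq_left.mpr (sub B hB)]; exact hA
  rcases mem_insert.mp hB with rfl | hB'
  · rw [union_eq_right.mpr (sub A hA)]; exact hB
  exact mem_insert_of_mem (mem_powerset.mpr
    (union_subset (mem_powerset.mp hA') (mem_powerset.mp hB')))

lemma W_dens (n k : ℕ) (h : k < n) :
    2 * n * density (W n k) * (2 ^ k + 1) = k * 2 ^ k + 2 * n := by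
  have nm : range n ∉ (range k).powerset := by
    rw [mem_powerset, range_subset_range]; omega
  have n0 : (n : ℚ) ≠ 0 := by exact_mod_cast (by omega : n ≠ 0)
  have := sum_pow k
  rw [density, W_union n k h, W, sum_insert nm, card_insert_of_notMem nm, card_powerset,
    card_range, card_range]
  push_cast
  field_simp
  linarith

lemma step_up (n j : ℕ) (μ : ℚ) (hn : n ≤ 2 ^ j) (h : μ * (2 ^ j + 1) ≤ j * 2 ^ j + 2 * n) :
    μ * (2 ^ (j + 1) + 1) ≤ (j + 1 : ℕ) * 2 ^ (j + 1) + 2 * n := by
  have hn' : (n : ℚ) ≤ 2 ^ j := by exact_mod_cast hn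
  have p : (0 : ℚ) < 2 ^ j := by positivity
  have j0 : (0 : ℚ) ≤ j := by positivity
  push_cast
  rw [pow_succ]
  generalize (2 : ℚ) ^ j = x at *
  refine le_of_mul_le_mul_right ?_ (by linarith : 0 < x + 1)
  have := mul_le_mul_of_nonneg_right h (by linarith : 0 ≤ x * 2 + 1)
  nlinarith [mul_nonneg p.le (by linarith : 0 ≤ 2 * x + j + 2 - 2 * n)]

lemma step_down (n j : ℕ) (μ : ℚ) (hn : 2 ^ (j + 1) ≤ n)
    (h : μ * (2 ^ (j + 1) + 1) ≤ (j + 1 : ℕ) * 2 ^ (j + 1) + 2 * n) :
    μ * (2 ^ j + 1) ≤ j * 2 ^ j + 2 * n := by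
  have hn' : (2 : ℚ) ^ (j + 1) ≤ n := by exact_mod_cast hn
  have hj : (j : ℚ) + 2 ≤ 2 ^ (j + 1) := by
    exact_mod_cast (Nat.lt_two_pow_self (n := j + 1))
  have p : (0 : ℚ) < 2 ^ j := by positivity
  push_cast at h
  rw [pow_succ] at *
  generalize (2 : ℚ) ^ j = x at *
  refine le_of_mul_le_mul_right ?_ (by linarith : 0 < x * 2 + 1)
  have := mul_le_mul_of_nonneg_right h (by linarith : 0 ≤ x + 1)
  nlinarith [mul_nonneg p.le (by linarith : 0 ≤ 2 * n - 2 * x - j - 2)]

lemma clog_lt (n : ℕ) (hn : 1 ≤ n) : Nat.clog 2 n < n := by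
  obtain ⟨m, rfl⟩ : ∃ m, n = m + 1 := ⟨n - 1, by omega⟩
  have : Nat.clog 2 (m + 1) ≤ m :=
    Nat.clog_le_of_le_pow (Nat.lt_two_pow_self (n := m))
  omega

theorem result (n : ℕ) (hn : 1 ≤ n) :
    IsLeast {d : ℚ | ∃ F : Finset (Finset ℕ), F.Nonempty ∧ UnionClosed F ∧
        (F.biUnion id).card = n ∧ density F = d}
      (min (density (W n (Nat.log 2 n))) (density (W n (Nat.clog 2 n)))) := by
  have c1 := clog_lt n hn
  have c0 : Nat.log 2 n < n := lt_of_le_of_lt (Nat.log_le_clog 2 n) c1
  have mem : ∀ k < n, density (W n k) ∈ {d : ℚ | ∃ F : Finset (Finset ℕ), F.Nonempty ∧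
      UnionClosed F ∧ (F.biUnion id).card = n ∧ density F = d} := fun k hk =>
    ⟨W n k, insert_nonempty _ _, W_uc n k hk, by rw [W_union n k hk, card_range], rfl⟩
  refine ⟨by rcases min_choice (density (W n (Nat.log 2 n))) (density (W n (Nat.clog 2 n))) with
    e | e <;> rw [e] <;> apply mem <;> assumption, ?_⟩
  rintro d ⟨F, hne, hF, hc, rfl⟩
  set ν := min (density (W n (Nat.log 2 n))) (density (W n (Nat.clog 2 n))) with hν
  have n0 : (0 : ℚ) < n := by exact_mod_cast hn
  have base : ∀ k < n, ν ≤ density (W n k) → 2 * n * ν * (2 ^ k + 1) ≤ k * 2 ^ k + 2 * n := by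
    intro k hk e
    rw [← W_dens n k hk]
    gcongr
  have all : ∀ j : ℕ, 2 * n * ν * (2 ^ j + 1) ≤ j * 2 ^ j + 2 * n := by
    intro j
    by_cases hj : j ≤ Nat.log 2 n
    · induction hj using Nat.decreasingInduction with
      | self => exact base _ c0 (min_le_left _ _)
      | of_succ k hk ih =>
        exact step_down n k _ (le_trans (Nat.pow_le_pow_right (by norm_num) hk)
          (Nat.pow_log_le_self 2 (by omega))) ih
    · have h1 : Nat.clog 2 n ≤ j := Nat.clog_le_of_le_pow
        ((Nat.lt_pow_succ_log_self (by norm_num) n).le.trans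
          (Nat.pow_le_pow_right (by norm_num) (by omega)))
      clear hj
      induction h1 with
      | refl => exact base _ c1 (min_le_right _ _)
      | @step k hk ih =>
        exact step_up n k _ ((Nat.le_pow_clog (by norm_num) n).trans
          (Nat.pow_le_pow_right (by norm_num) hk)) ih
  have := Pool.Agent.H17.Wojcik.main F hne hF (2 * n * ν) (by rw [hc]; exact all)
  have M0 : (0 : ℚ) < F.card := by exact_mod_cast hne.card_pos
  rw [density, hc, le_div_iff₀ (by positivity)]
  linarith

end Pool.Agent.Results.MP_24ae9b_co.Wojcik
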